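import Mathlib
import Pool.Agent.Helper42.DB.Goals2

set_option autoImplicit false

namespace Pool.Agent.Helper42.DB.PkFLB

open Set Filter Topology

variable {S : Sys}

lemma ne_i (hA : G_ARC S) (x y : St S) (h : Fl x y) : x.i ≠ y.i := by
  intro hi
  obtain ⟨hx, hy, _, t, ht, hp, _⟩ := h
  have h1 := (hA x.i).2.2.2 x.u (Ioo_subset_Icc_self hx.1) y.pos (by
    refine subset_convexHull ℝ _ ⟨y.u, ?_, ?_⟩
    · rw [hi]; exact Ioo_subset_Icc_self hy.1
    · rw [hi]; rfl)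
  have h2 : S.g x.i x.u - y.pos = (-t) • ee x.th := by
    rw [hp]
    show x.pos - (x.pos + t • ee x.th) = (-t) • ee x.th
    rw [neg_smul]; ring
  rw [h2, dt_smul_right, dt_ee_ee] at h1
  have h3 : x.th - x.u = x.φ := by simp [St.th]
  rw [h3] at h1
  have h4 := hx.cos_pos
  have h5 : 0 ≤ S.κ * ‖(-t) • ee x.th‖ ^ 2 := mul_nonneg (hA x.i).1.le (sq_nonneg _)
  have h6 : 0 < t * Real.cos x.φ := mul_pos ht h4
  linarith

lemma not_lt_aux (p : ℂ) (θ t t' : ℝ) (y y' : St S) (hy : y.Ok) (ht : 0 < t)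
    (hp : y.pos = p + t • ee θ) (hs : ∀ s ∈ Ioo 0 t', p + s • ee θ ∈ S.Y) : ¬ t < t' := by
  intro hlt
  have h1 := hs t ⟨ht, hlt⟩
  rw [← hp] at h1
  exact S.out y.i y.u (Ioo_subset_Icc_self hy.1) h1

lemma lnd_uniq (p : ℂ) (θ : ℝ) (y y' : St S) (h : Lnd p θ y) (h' : Lnd p θ y') : y = y' := by
  obtain ⟨hy, he, t, ht, hp, hs⟩ := h
  obtain ⟨hy', he', t', ht', hp', hs'⟩ := h'
  have h1 : t = t' := by
    rcases lt_trichotomy t t' with h | h | h
    · exact absurd h (not_lt_aux p θ t t' y y' hy ht hp hs')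
    · exact h
    · exact absurd h (not_lt_aux p θ t' t y' y hy' ht' hp' hs)
  have h2 : y.pos = y'.pos := by rw [hp, hp', h1]
  obtain ⟨h3, h4⟩ := S.inj y.i y'.i y.u hy.1 y'.u (Ioo_subset_Icc_self hy'.1) h2
  have h5 : ee y.bk = ee y'.bk := by
    rw [he] at he'
    exact neg_injective he'
  rw [ee_eq_ee_iff] at h5
  have h6 : y.bk - y'.bk = -(y.φ - y'.φ) := by
    simp only [St.bk, h4]; ring
  rw [h6, Real.cos_neg] at h5
  have h7 := abs_lt.1 hy.2
  have h8 := abs_lt.1 hy'.2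
  have h9 : y.φ - y'.φ = 0 := by
    refine (Real.cos_eq_one_iff_of_lt_of_lt ?_ ?_).1 h5
    · have := Real.pi_pos; linarith
    · have := Real.pi_pos; linarith
  exact St.ext h3 h4 (by linarith)

theorem thm (S : Sys) : G_ARC S → G_FLB S := by
  intro hA
  refine ⟨fun x y h => ne_i hA x y h, fun p θ y y' h h' => lnd_uniq p θ y y' h h', ?_⟩
  intro x y y' h h'
  obtain ⟨_, hy, he, hr⟩ := h
  obtain ⟨_, hy', he', hr'⟩ := h'
  exact lnd_uniq x.pos x.th y y' ⟨hy, he, hr⟩ ⟨hy', he', hr'⟩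

end Pool.Agent.Helper42.DB.PkFLB
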