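import Mathlib
import Pool.Agent.Helper42.DB.Goals3

set_option autoImplicit false

namespace Pool.Agent.Helper42.DB.PkREPAR

open Set Filter Topology

/-- unified reparametrization data of one component -/
structure Dat (γ : ℝ → ℂ) (cl : Prop) (c : Crv) (σ : ℝ → ℝ) (r0 r1 : ℝ) : Prop where
  r0pos : 0 < r0
  le : ∀ u, r0 ≤ c.R u
  ge : ∀ u, c.R u ≤ r1
  cont : ContinuousOn σ (Icc 0 1)
  mono : StrictMonoOn σ (Icc 0 1)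
  pt : ∀ t ∈ Icc (0 : ℝ) 1, deriv γ t ≠ 0 ∧ c.G (σ t) = γ t ∧
      ee (σ t) = -(Complex.I * deriv γ t) / (‖deriv γ t‖ : ℂ)
  cl : cl → (∃ k : ℤ, σ 1 - σ 0 = 2 * Real.pi * k) ∧ ∀ u, c.G (u + (σ 1 - σ 0)) = c.G u

lemma exists_dat (h1 : G_REPAR1) (h2 : G_REPAR2) (T : Table) (i : T.ι) :
    ∃ (c : Crv) (σ : ℝ → ℝ) (r0 r1 : ℝ), Dat (T.γ i) (T.closed i) c σ r0 r1 := by
  by_cases hc : T.closed i
  · obtain ⟨c, σ, r0, r1, a1, a2, a3, a4, a5, ⟨k, a6⟩, a7, a8⟩ :=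
      h2 (T.γ i) (T.smooth i) (T.periodic i hc) (T.curved i)
    have hk : σ 1 - σ 0 = 2 * Real.pi * k := by
      have := a6 0
      rw [zero_add] at this
      linarith
    refine ⟨c, σ, r0, r1, a1, a2, a3, a4.continuousOn, a5.strictMonoOn _, fun t _ => a8 t, ?_⟩
    intro _
    refine ⟨⟨k, hk⟩, ?_⟩
    intro u
    obtain ⟨t, rfl⟩ := a7 u
    rw [hk, ← a6 t, (a8 (t + 1)).2.1, (a8 t).2.1, T.periodic i hc t]
  · obtain ⟨c, σ, r0, r1, a1, a2, a3, a4, a5, a6⟩ := h1 (T.γ i) (T.smooth i) (T.curved i)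
    exact ⟨c, σ, r0, r1, a1, a2, a3, a4, a5, a6, fun h => absurd h hc⟩

lemma Dat.img {γ : ℝ → ℂ} {cl : Prop} {c : Crv} {σ : ℝ → ℝ} {r0 r1 : ℝ}
    (h : Dat γ cl c σ r0 r1) {u : ℝ} (hu : u ∈ Icc (σ 0) (σ 1)) :
    ∃ s ∈ Icc (0 : ℝ) 1, σ s = u := by
  have := intermediate_value_Icc (zero_le_one' ℝ) h.cont hu
  exact this

lemma Dat.mem {γ : ℝ → ℂ} {cl : Prop} {c : Crv} {σ : ℝ → ℝ} {r0 r1 : ℝ}
    (h : Dat γ cl c σ r0 r1) {s : ℝ} (hs : s ∈ Icc (0 : ℝ) 1) : σ s ∈ Icc (σ 0) (σ 1) :=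
  ⟨h.mono.monotoneOn ⟨le_rfl, zero_le_one⟩ hs hs.1, h.mono.monotoneOn hs ⟨zero_le_one, le_rfl⟩ hs.2⟩

lemma Dat.lt_one {γ : ℝ → ℂ} {cl : Prop} {c : Crv} {σ : ℝ → ℝ} {r0 r1 : ℝ}
    (h : Dat γ cl c σ r0 r1) {s : ℝ} (hs : s ∈ Icc (0 : ℝ) 1) : σ s < σ 1 ↔ s < 1 :=
  h.mono.lt_iff_lt hs ⟨zero_le_one, le_rfl⟩

lemma Dat.pos {γ : ℝ → ℂ} {cl : Prop} {c : Crv} {σ : ℝ → ℝ} {r0 r1 : ℝ}
    (h : Dat γ cl c σ r0 r1) {s : ℝ} (hs : s ∈ Icc (0 : ℝ) 1) : σ 0 < σ s ↔ 0 < s :=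
  h.mono.lt_iff_lt ⟨le_rfl, zero_le_one⟩ hs

theorem thm : G_REPAR1 → G_REPAR2 → G_REPAR := by
  classical
  intro h1 h2 T
  haveI := T.finite
  choose c σ r0 r1 hD using exists_dat h1 h2 T
  have hr0 : ∃ r : ℝ, 0 < r ∧ ∀ i, r ≤ r0 i := by
    by_cases hne : Nonempty T.ι
    · obtain ⟨i0, hi0⟩ := Finite.exists_min r0
      exact ⟨r0 i0, (hD i0).r0pos, hi0⟩
    · exact ⟨1, one_pos, fun i => absurd ⟨i⟩ hne⟩
  have hr1 : ∃ r : ℝ, ∀ i, r1 i ≤ r := by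
    by_cases hne : Nonempty T.ι
    · obtain ⟨i0, hi0⟩ := Finite.exists_max r1
      exact ⟨r1 i0, hi0⟩
    · exact ⟨1, fun i => absurd ⟨i⟩ hne⟩
  obtain ⟨R0, hR0, hR0'⟩ := hr0
  obtain ⟨R1, hR1'⟩ := hr1
  refine ⟨{
    Y := T.Y
    isOpen := T.isOpen
    bdd := T.isBounded
    ne := T.isConnected.nonempty
    ι := T.ι
    fin := Fintype.ofFinite T.ι
    crv := c
    A := fun i => σ i 0
    B := fun i => σ i 1
    hAB := fun i => ((hD i).pos ⟨zero_le_one, le_rfl⟩).2 one_pos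
    r0 := R0
    r1 := R1
    r0_pos := hR0
    le_R := fun i u => (hR0' i).trans ((hD i).le u)
    R_le := fun i u => ((hD i).ge u).trans (hR1' i)
    closed := T.closed
    per := fun i hi => (hD i).cl hi
    bdry := ?_
    simple := ?_
    side := ?_ }, rfl, ?_⟩
  · rw [T.boundary]
    refine iUnion_congr ?_
    intro i
    ext z
    constructor
    · rintro ⟨t, ht, rfl⟩
      exact ⟨σ i t, (hD i).mem ht, ((hD i).pt t ht).2.1⟩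
    · rintro ⟨u, hu, rfl⟩
      obtain ⟨s, hs, rfl⟩ := (hD i).img hu
      exact ⟨s, hs, ((hD i).pt s hs).2.1.symm⟩
  · rintro i j u v ⟨hu1, hu2, hu3⟩ ⟨hv1, hv2, hv3⟩ huv
    obtain ⟨s, hs, rfl⟩ := (hD i).img ⟨hu1, hu2.le⟩
    obtain ⟨t, ht, rfl⟩ := (hD j).img ⟨hv1, hv2⟩
    rw [((hD i).pt s hs).2.1, ((hD j).pt t ht).2.1] at huv
    obtain ⟨rfl, rfl⟩ := T.simple i j s t
      ⟨hs.1, ((hD i).lt_one hs).1 hu2, fun h => ((hD i).pos hs).1 (hu3 h)⟩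
      ⟨ht.1, ht.2, fun h => ((hD j).lt_one ht).1 (hv3 h)⟩ huv
    exact ⟨rfl, rfl⟩
  · rintro i u ⟨hu1, hu2, hu3⟩
    obtain ⟨s, hs, rfl⟩ := (hD i).img ⟨hu1, hu2.le⟩
    obtain ⟨p1, p2, p3⟩ := (hD i).pt s hs
    obtain ⟨ε, hε, hr⟩ := T.side i s
      ⟨hs.1, ((hD i).lt_one hs).1 hu2, fun h => ((hD i).pos hs).1 (hu3 h)⟩
    have hn : 0 < ‖deriv (T.γ i) s‖ := norm_pos_iff.2 p1
    refine ⟨ε * ‖deriv (T.γ i) s‖, by positivity, ?_⟩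
    intro r hr'
    have h3 := hr (r / ‖deriv (T.γ i) s‖) ⟨div_pos hr'.1 hn, (div_lt_iff₀ hn).2 hr'.2⟩
    have e1 : r • ee (σ i s)
        = -(((r / ‖deriv (T.γ i) s‖ : ℝ) : ℂ) * (Complex.I * deriv (T.γ i) s)) := by
      rw [p3, Complex.real_smul]
      push_cast
      ring
    rw [p2, e1]
    constructor
    · rw [← sub_eq_add_neg]; exact h3.1
    · rw [sub_neg_eq_add]; exact h3.2
  · ext x
    constructor
    · rintro ⟨i, u, ⟨hu1, hu2, hu3⟩, rfl⟩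
      obtain ⟨s, hs, hsu⟩ := (hD i).img ⟨hu1, hu2.le⟩
      obtain ⟨p1, p2, p3⟩ := (hD i).pt s hs
      subst hsu
      refine ⟨i, s, ⟨hs.1, ((hD i).lt_one hs).1 hu2, fun h => ((hD i).pos hs).1 (hu3 h)⟩, ?_⟩
      exact Prod.ext p2 p3
    · rintro ⟨i, s, ⟨hs1, hs2, hs3⟩, rfl⟩
      have hs : s ∈ Icc (0 : ℝ) 1 := ⟨hs1, hs2.le⟩
      obtain ⟨p1, p2, p3⟩ := (hD i).pt s hs
      refine ⟨i, σ i s, ⟨((hD i).mem hs).1, ((hD i).lt_one hs).2 hs2,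
        fun h => ((hD i).pos hs).2 (hs3 h)⟩, ?_⟩
      exact Prod.ext p2.symm p3.symm

end Pool.Agent.Helper42.DB.PkREPAR
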