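import Mathlib
import Pool.Agent.Helper42.DB.Goals2

set_option autoImplicit false

namespace Pool.Agent.Helper42.DB.PkVARSUPP

open Set Filter Topology

variable {S : Sys}

lemma norm_add_smul_le (w h : ℂ) (s : ℝ) (hw : w ≠ 0) :
    ‖w + s • h‖ ≤ ‖w‖ + s * (dt w h / ‖w‖) + s ^ 2 * (‖h‖ ^ 2 / (2 * ‖w‖)) := by
  have h1 : 0 < ‖w‖ := norm_pos_iff.2 hw
  have h2 : ‖w + s • h‖ ^ 2 = ‖w‖ ^ 2 + 2 * s * dt w h + s ^ 2 * ‖h‖ ^ 2 := by
    rw [← dt_self, ← dt_self, ← dt_self, dt_add_left, dt_add_right, dt_add_right, dt_smul_left,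
      dt_smul_left, dt_smul_right, dt_smul_right, dt_comm h w]
    ring
  have h3 : 0 ≤ (‖w + s • h‖ - ‖w‖) ^ 2 := sq_nonneg _
  have h4 : ‖w‖ + s * (dt w h / ‖w‖) + s ^ 2 * (‖h‖ ^ 2 / (2 * ‖w‖))
      = (‖w‖ ^ 2 + ‖w + s • h‖ ^ 2) / (2 * ‖w‖) := by
    rw [h2]; field_simp; ring
  rw [h4, le_div_iff₀ (by positivity)]
  nlinarith

theorem thm (S : Sys) : G_ARC S → G_VARSUPP S := by
  intro hA i p A B α φ hp hpA hpB hmin hα hφ hB hA'
  set G := S.g i α with hG
  have hGK : G ∈ S.K i := subset_convexHull ℝ _ ⟨α, hα, rfl⟩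
  set h : ℂ := G - p with hh
  have hpA' : 0 < ‖p - A‖ := norm_pos_iff.2 (sub_ne_zero.2 hpA)
  have hpB' : 0 < ‖B - p‖ := norm_pos_iff.2 (sub_ne_zero.2 (Ne.symm hpB))
  have e1 : dt (p - A) h / ‖p - A‖ = -dt (ee (α - φ)) h := by
    have e2 : p - A = (-‖p - A‖) • ee (α - φ) := by
      rw [neg_smul, norm_sub_rev p A, ← hA']; ring
    have e3 : dt (p - A) h = -‖p - A‖ * dt (ee (α - φ)) h := by
      conv_lhs => rw [e2]
      rw [dt_smul_left]
    rw [e3]; field_simp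
  have e2 : dt (B - p) (-h) / ‖B - p‖ = -dt (ee (α + φ)) h := by
    have e3 : dt (B - p) (-h) = -‖B - p‖ * dt (ee (α + φ)) h := by
      rw [dt_neg_right]
      conv_lhs => rw [hB]
      rw [dt_smul_left]; ring
    rw [e3]; field_simp
  have e3 : dt (ee (α - φ)) h + dt (ee (α + φ)) h = 2 * Real.cos φ * dt (ee α) h := by
    simp only [dt, ee_re, ee_im, Real.cos_add, Real.cos_sub, Real.sin_add, Real.sin_sub]
    ring
  set D := dt (ee α) h with hD
  set C := ‖h‖ ^ 2 / (2 * ‖p - A‖) + ‖h‖ ^ 2 / (2 * ‖B - p‖) with hC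
  have hC0 : 0 ≤ C := by positivity
  have key : ∀ s : ℝ, 0 < s → s ≤ 1 → 0 ≤ -(2 * Real.cos φ * D) + s * C := by
    intro s hs0 hs1
    have f1 : p + s • h ∈ S.K i := by
      have := (convex_convexHull ℝ (S.g i '' Icc (S.a i) (S.b i))).add_smul_sub_mem hp hGK
        (t := s) ⟨hs0.le, hs1⟩
      exact this
    have f2 := hmin _ f1
    have f3 := norm_add_smul_le (p - A) h s (sub_ne_zero.2 hpA)
    have f4 := norm_add_smul_le (B - p) (-h) s (sub_ne_zero.2 (Ne.symm hpB))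
    have f5 : p + s • h - A = p - A + s • h := by ring
    have f6 : B - (p + s • h) = B - p + s • (-h) := by rw [smul_neg]; ring
    rw [f5, f6] at f2
    rw [e1] at f3
    rw [e2, norm_neg] at f4
    have f7 : 0 ≤ s * (-(2 * Real.cos φ * D) + s * C) := by
      rw [← e3, hC]
      nlinarith [f2, f3, f4]
    exact nonneg_of_mul_nonneg_right f7 hs0
  have hD0 : D ≤ 0 := by
    by_contra hcon
    push Not at hcon
    have g1 : 0 < Real.cos φ * D := mul_pos hφ hcon
    have g2 : 0 < min 1 (Real.cos φ * D / (C + 1)) := lt_min one_pos (by positivity)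
    have g3 := key _ g2 (min_le_left _ _)
    have g4 : min 1 (Real.cos φ * D / (C + 1)) * C ≤ Real.cos φ * D := by
      calc min 1 (Real.cos φ * D / (C + 1)) * C ≤ Real.cos φ * D / (C + 1) * C :=
            mul_le_mul_of_nonneg_right (min_le_right _ _) hC0
        _ = Real.cos φ * D * (C / (C + 1)) := by ring
        _ ≤ Real.cos φ * D * 1 := by
            refine mul_le_mul_of_nonneg_left ?_ g1.le
            rw [div_le_one (by positivity)]; linarith
        _ = Real.cos φ * D := mul_one _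
    nlinarith
  have h1 := (hA i).2.2.2 α hα p hp
  have h2 : S.κ * ‖S.g i α - p‖ ^ 2 ≤ 0 := h1.trans hD0
  have h3 : ‖S.g i α - p‖ ^ 2 ≤ 0 := by
    by_contra hcon
    push Not at hcon
    have := mul_pos (hA i).1 hcon
    linarith
  have h4 : ‖S.g i α - p‖ = 0 := by
    have := sq_nonneg ‖S.g i α - p‖
    exact pow_eq_zero_iff (two_ne_zero) |>.1 (le_antisymm h3 this)
  exact (sub_eq_zero.1 (norm_eq_zero.1 h4)).symm

end Pool.Agent.Helper42.DB.PkVARSUPP
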